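import Pool.Agent.J4H63.IS.Stm

set_option autoImplicit false

/-! Project IS (helper63), piece BN: the number of advices. -/

namespace Pool.Agent.J4H18.IS

open Finset Filter Topology
open Pool.Agent.J4H63.IS (S_BN nb)

/-- (BN) -/
theorem t_BN : S_BN := by
  intro η hη
  have hl2 : 0 < Real.log 2 := Real.log_pos (by norm_num)
  -- `log (b + 1) / b` tends to `0`
  have h1 : Tendsto (fun b : ℕ => Real.log ((b : ℝ) + 1) / ((b : ℝ) + 1)) atTop (𝓝 0) := by
    have h2 : Tendsto (fun x : ℝ => Real.log x / x) atTop (𝓝 0) := Real.isLittleO_log_id_atTop.tendsto_div_nhds_zero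
    exact h2.comp (tendsto_atTop_add_const_right atTop 1 tendsto_natCast_atTop_atTop)
  obtain ⟨b, hb1, hb2⟩ : ∃ b : ℕ, 1 ≤ b ∧ Real.log ((b : ℝ) + 1) ≤ η / 2 * Real.log 2 * b := by
    have h3 := h1.eventually (ge_mem_nhds (show (0 : ℝ) < η / 4 * Real.log 2 by positivity))
    obtain ⟨b, hb, hb1⟩ := (h3.and (eventually_ge_atTop 1)).exists
    refine ⟨b, hb1, ?_⟩
    have hb0 : (1 : ℝ) ≤ b := by exact_mod_cast hb1
    rw [div_le_iff₀ (by positivity)] at hb
    have h4 : η / 4 * Real.log 2 * ((b : ℝ) + 1) ≤ η / 4 * Real.log 2 * (2 * b) :=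
      mul_le_mul_of_nonneg_left (by linarith) (by positivity)
    linarith
  have hb0 : (1 : ℝ) ≤ b := by exact_mod_cast hb1
  have hL : 0 ≤ Real.log ((b : ℝ) + 1) := Real.log_nonneg (by linarith)
  refine ⟨b, ⌈2 * Real.log ((b : ℝ) + 1) / (η * Real.log 2)⌉₊, hb1, fun n hn => ?_⟩
  have hn2 : Real.log ((b : ℝ) + 1) ≤ η / 2 * Real.log 2 * n := by
    have h5 : 2 * Real.log ((b : ℝ) + 1) / (η * Real.log 2) ≤ n := (Nat.le_ceil _).trans (by exact_mod_cast hn)
    rw [div_le_iff₀ (by positivity)] at h5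
    linarith
  have hdiv : ((n / b : ℕ) : ℝ) * b ≤ n := by exact_mod_cast Nat.div_mul_le_self n b
  have h6 : ((nb n b : ℕ) : ℝ) * Real.log ((b : ℝ) + 1) ≤ η * n * Real.log 2 := by
    unfold nb
    push_cast
    have h7 : ((n / b : ℕ) : ℝ) * Real.log ((b : ℝ) + 1) ≤ ((n / b : ℕ) : ℝ) * (η / 2 * Real.log 2 * b) :=
      mul_le_mul_of_nonneg_left hb2 (by positivity)
    have h8 : η / 2 * Real.log 2 * (((n / b : ℕ) : ℝ) * b) ≤ η / 2 * Real.log 2 * n :=
      mul_le_mul_of_nonneg_left hdiv (by positivity)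
    have e : ((n / b : ℕ) : ℝ) = ((n / b : ℕ) : ℝ) := rfl
    rw [add_mul, one_mul]
    push_cast at h7 h8 ⊢
    linarith
  have hpos : (0 : ℝ) < (b : ℝ) + 1 := by linarith
  push_cast
  rw [← Real.exp_log hpos, ← Real.exp_nat_mul]
  rw [Real.rpow_def_of_pos (by norm_num : (0 : ℝ) < 2)]
  apply Real.exp_le_exp.2
  linarith

end Pool.Agent.J4H18.IS
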