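import Pool.Agent.J4H63.IS.Stm
import Pool.Agent.J4H21.SP.Comp

set_option autoImplicit false

/-! Project IS (helper63), piece OR: substitution and disjunction over branches. -/

namespace Pool.Agent.J4H18.IS

open Finset Pool.Agent.J4H64.SS Pool.Agent.J4H95.SP Pool.Agent.J4H21.SP
open Pool.Agent.J4H63.IS (S_OR S_BN nb)

open Classical in
/-- (OR) -/
theorem t_OR : S_OR := by
  intro I J β _ _ _ _ _ w d d₀ s D hw hDW hDd hDm F hF
  have i₀ : I := Classical.arbitrary I
  have h1 : ∀ t : β, ∀ j : J, ∃ C : Circ I, C.WF ∧ C.Depth (d₀ + 1) ∧ C.m ≤ w ^ (2 * d₀) ∧ ∀ x, C.Acc x ↔ F t x j = true :=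
    fun t j => tree i₀ w hw d₀ _ (hF t j)
  choose T t1 t2 t3 t4 using h1
  have h2 : ∀ t : β, ∃ C : Circ I, C.WF ∧ C.Depth (d + (d₀ + 1)) ∧ C.m = (D t).m + ∑ c, (T t c).m ∧
      ∀ x, C.Acc x ↔ (D t).Acc (fun c => decide ((T t c).Acc x)) :=
    fun t => comp (D t) (T t) (hDW t) (t1 t) d (d₀ + 1) (hDd t) (t2 t)
  choose E e1 e2 e3 e4 using h2
  obtain ⟨N, n1, n2, n3, n4, _⟩ := one (I := β) 0 univ (by rw [card_univ]; exact Fintype.card_pos)
    (by intro h; exact absurd h (by decide))
  obtain ⟨C, c1, c2, c3, c4⟩ := comp N E n1 e1 1 (d + (d₀ + 1)) n2 e2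
  refine ⟨C, c1, depth_mono c2 (by omega), ?_, fun x => ?_⟩
  · rw [c3, n3]
    have hs : ∑ t, (E t).m ≤ Fintype.card β * (s + Fintype.card J * w ^ (2 * d₀)) := by
      calc ∑ t, (E t).m ≤ ∑ _t : β, (s + Fintype.card J * w ^ (2 * d₀)) := by
            apply Finset.sum_le_sum
            intro t _
            rw [e3 t]
            apply Nat.add_le_add (hDm t)
            calc ∑ c, (T t c).m ≤ ∑ _c : J, w ^ (2 * d₀) := Finset.sum_le_sum fun c _ => t3 t c
              _ = Fintype.card J * w ^ (2 * d₀) := by simp
        _ = Fintype.card β * (s + Fintype.card J * w ^ (2 * d₀)) := by simp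
    omega
  · rw [c4 x, n4 rfl]
    constructor
    · rintro ⟨t, _, ht⟩
      rw [decide_eq_true_eq, e4 t x] at ht
      refine ⟨t, ?_⟩
      have e : (fun c => decide ((T t c).Acc x)) = F t x := by
        funext c
        have := t4 t c x
        by_cases hc : F t x c = true
        · rw [hc]; exact decide_eq_true (this.2 hc)
        · rw [Bool.not_eq_true] at hc
          rw [hc]
          apply decide_eq_false
          intro h
          rw [this.1 h] at hc
          exact absurd hc (by decide)
      rw [e] at ht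
      exact ht
    · rintro ⟨t, ht⟩
      refine ⟨t, mem_univ _, ?_⟩
      rw [decide_eq_true_eq, e4 t x]
      have e : (fun c => decide ((T t c).Acc x)) = F t x := by
        funext c
        have := t4 t c x
        by_cases hc : F t x c = true
        · rw [hc]; exact decide_eq_true (this.2 hc)
        · rw [Bool.not_eq_true] at hc
          rw [hc]
          apply decide_eq_false
          intro h
          rw [this.1 h] at hc
          exact absurd hc (by decide)
      rw [e]
      exact ht

end Pool.Agent.J4H18.IS
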